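import Mathlib
import Pool.Agent.U73.LS.Stm

set_option autoImplicit false

/-!
Project LS (helper73), package CORE (helper399): the parametrization `(t², t³)`.
-/

open Finset

namespace Pool.Agent.U399.LS.CORE

theorem count (p : ℕ) (hp : p.Prime) (k : ℕ) (hk : 1 ≤ k) :
    ((range (p ^ k) ×ˢ range (p ^ k)).filter (fun x : ℕ × ℕ =>
      ¬ (p : ℤ) ∣ (x.1 : ℤ) ∧ (p : ℤ) ^ k ∣ (x.1 : ℤ) ^ 3 - (x.2 : ℤ) ^ 2)).card
      = Nat.totient (p ^ k) := by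
  have hN : 0 < p ^ k := pow_pos hp.pos k
  have : NeZero (p ^ k) := ⟨hN.ne'⟩
  rw [← ZMod.card_units_eq_totient (p ^ k), ← Finset.card_univ]
  symm
  -- divisibility in terms of `ZMod`
  have hdvd : ∀ x y : ℕ, ((p : ℤ) ^ k ∣ (x : ℤ) ^ 3 - (y : ℤ) ^ 2 ↔
      ((x : ZMod (p ^ k)) ^ 3 = (y : ZMod (p ^ k)) ^ 2)) := by
    intro x y
    have h1 : ((p ^ k : ℕ) : ℤ) = (p : ℤ) ^ k := by push_cast; rfl
    rw [← h1, ← ZMod.intCast_zmod_eq_zero_iff_dvd]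
    push_cast
    exact sub_eq_zero
  have hunit : ∀ x : ℕ, (¬ (p : ℤ) ∣ (x : ℤ) ↔ IsUnit (x : ZMod (p ^ k))) := by
    intro x
    rw [ZMod.isUnit_iff_coprime, Nat.coprime_pow_right_iff (by omega), Nat.coprime_comm,
      hp.coprime_iff_not_dvd, Int.natCast_dvd_natCast]
  refine Finset.card_bij (fun (u : (ZMod (p ^ k))ˣ) _ =>
    (((u : ZMod (p ^ k)) ^ 2).val, ((u : ZMod (p ^ k)) ^ 3).val)) ?_ ?_ ?_
  · intro u _
    rw [Finset.mem_filter, Finset.mem_product, Finset.mem_range, Finset.mem_range]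
    refine ⟨⟨ZMod.val_lt _, ZMod.val_lt _⟩, ?_, ?_⟩
    · rw [hunit, ZMod.natCast_zmod_val]
      exact u.isUnit.pow 2
    · rw [hdvd, ZMod.natCast_zmod_val, ZMod.natCast_zmod_val]
      ring
  · intro u _ v _ h
    rw [Prod.mk.injEq] at h
    have h2 : ((u ^ 2 : (ZMod (p ^ k))ˣ) : ZMod (p ^ k)) = ((v ^ 2 : (ZMod (p ^ k))ˣ) : ZMod (p ^ k)) := by
      push_cast; exact ZMod.val_injective _ h.1
    have h3 : ((u ^ 3 : (ZMod (p ^ k))ˣ) : ZMod (p ^ k)) = ((v ^ 3 : (ZMod (p ^ k))ˣ) : ZMod (p ^ k)) := by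
      push_cast; exact ZMod.val_injective _ h.2
    have h2' := Units.ext h2
    have h3' := Units.ext h3
    have h4 : u = u ^ 3 * (u ^ 2)⁻¹ := by group
    have h5 : v = v ^ 3 * (v ^ 2)⁻¹ := by group
    rw [h4, h2', h3', ← h5]
  · rintro ⟨x, y⟩ hxy
    rw [Finset.mem_filter, Finset.mem_product, Finset.mem_range, Finset.mem_range] at hxy
    obtain ⟨⟨hx, hy⟩, h1, h2⟩ := hxy
    simp only at hx hy h1 h2
    rw [hunit] at h1
    rw [hdvd] at h2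
    have hY : IsUnit (y : ZMod (p ^ k)) := by
      have h3 : IsUnit ((y : ZMod (p ^ k)) ^ 2) := by rw [← h2]; exact h1.pow 3
      exact (isUnit_pow_iff (by norm_num)).mp h3
    obtain ⟨X, hX⟩ := h1
    obtain ⟨Y, hY⟩ := hY
    have h4 : X ^ 3 = Y ^ 2 := by
      apply Units.ext
      push_cast
      rw [hX, hY, h2]
    refine ⟨Y * X⁻¹, Finset.mem_univ _, ?_⟩
    have h5 : (Y * X⁻¹) ^ 2 = X := by
      rw [mul_pow, ← h4]
      group
    have h6 : (Y * X⁻¹) ^ 3 = Y := by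
      calc (Y * X⁻¹) ^ 3 = (Y * X⁻¹) ^ 2 * (Y * X⁻¹) := by rw [pow_succ]
        _ = X * (Y * X⁻¹) := by rw [h5]
        _ = Y := by rw [mul_comm Y, mul_inv_cancel_left]
    have h7 : ((Y * X⁻¹ : (ZMod (p ^ k))ˣ) : ZMod (p ^ k)) ^ 2 = (x : ZMod (p ^ k)) := by
      rw [← Units.val_pow_eq_pow_val, h5, hX]
    have h8 : ((Y * X⁻¹ : (ZMod (p ^ k))ˣ) : ZMod (p ^ k)) ^ 3 = (y : ZMod (p ^ k)) := by
      rw [← Units.val_pow_eq_pow_val, h6, hY]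
    rw [Prod.mk.injEq, h7, h8]
    exact ⟨ZMod.val_cast_of_lt hx, ZMod.val_cast_of_lt hy⟩

theorem t_CORE : Pool.Agent.U73.LS.S_CORE := by
  intro p hp k hk
  rw [Pool.Agent.U73.LR.rc_def]
  have h := count p hp k hk
  rw [h, Nat.totient_prime_pow hp (by omega)]
  have hp0 : (p : ℝ) ≠ 0 := by exact_mod_cast hp.ne_zero
  obtain ⟨m, rfl⟩ : ∃ m, k = m + 1 := ⟨k - 1, by omega⟩
  rw [Nat.add_sub_cancel]
  push_cast [Nat.cast_sub hp.one_le]
  field_simp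
  ring

end Pool.Agent.U399.LS.CORE
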